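import Pool.Agent.W872.SV.Stm

set_option autoImplicit false

open Finset

namespace Pool.Agent.W176.SV.NS

lemma ns_le (n t : ℕ) : (W872.SV.NS n t : ℝ) ≤ (16 / 15 : ℝ) ^ n * 15 ^ t := by
  classical
  have h := Fintype.sum_pow_mul_eq_add_pow (Fin n) (1 / 15 : ℝ) 1
  simp only [one_pow, mul_one, Fintype.card_fin] at h
  have h2 : (W872.SV.NS n t : ℝ) * (1 / 15 : ℝ) ^ t ≤ ∑ s : Finset (Fin n), (1 / 15 : ℝ) ^ s.card := by
    unfold W872.SV.NS
    rw [← nsmul_eq_mul, ← sum_const]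
    refine (sum_le_sum (f := fun _ => (1 / 15 : ℝ) ^ t)
      (g := fun s : Finset (Fin n) => (1 / 15 : ℝ) ^ s.card) ?_).trans ?_
    · intro s hs
      have hs' : s.card ≤ t := by
        have := (mem_filter.mp hs).2
        exact this
      exact pow_le_pow_of_le_one (by norm_num) (by norm_num) hs'
    · exact sum_le_sum_of_subset_of_nonneg (filter_subset _ _) (fun _ _ _ => by positivity)
  rw [h] at h2
  have h3 : (W872.SV.NS n t : ℝ) = (W872.SV.NS n t : ℝ) * (1 / 15 : ℝ) ^ t * 15 ^ t := by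
    rw [mul_assoc, ← mul_pow]
    norm_num
  rw [h3]
  refine mul_le_mul_of_nonneg_right (h2.trans (le_of_eq ?_)) (by positivity)
  norm_num

theorem main : W872.SV.PartNS := by
  refine ⟨300, fun n hn => ?_⟩
  have key : ((W872.SV.NS n (n / 60 + 6) : ℝ)) ^ 4 ≤ 2 ^ n := by
    set q := n / 60 with hq
    obtain ⟨r, hr⟩ : ∃ r, n = 60 * q + r := ⟨n % 60, by omega⟩
    have hq5 : 5 ≤ q := by omega
    have h0 := ns_le n (q + 6)
    have h1 : (16 / 15 : ℝ) ^ 60 * 15 ≤ 2 ^ 10 := by norm_num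
    have h2 : (16 / 15 : ℝ) ^ 4 ≤ 2 := by norm_num
    have h3 : (15 : ℝ) ^ 24 ≤ 2 ^ 96 := by norm_num
    calc ((W872.SV.NS n (q + 6) : ℝ)) ^ 4
        ≤ ((16 / 15 : ℝ) ^ n * 15 ^ (q + 6)) ^ 4 := pow_le_pow_left₀ (by positivity) h0 4
      _ = ((16 / 15 : ℝ) ^ 60 * 15) ^ (4 * q) * ((16 / 15 : ℝ) ^ 4) ^ r * 15 ^ 24 := by
          rw [mul_pow, mul_pow, ← pow_mul, ← pow_mul, ← pow_mul, ← pow_mul]
          have e1 : n * 4 = 60 * (4 * q) + 4 * r := by omega
          have e2 : (q + 6) * 4 = 4 * q + 24 := by ring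
          rw [e1, e2, pow_add, pow_add]
          ring
      _ ≤ ((2 : ℝ) ^ 10) ^ (4 * q) * 2 ^ r * 2 ^ 96 := by
          have a1 : ((16 / 15 : ℝ) ^ 60 * 15) ^ (4 * q) ≤ ((2 : ℝ) ^ 10) ^ (4 * q) :=
            pow_le_pow_left₀ (by positivity) h1 _
          have a2 : ((16 / 15 : ℝ) ^ 4) ^ r ≤ 2 ^ r := pow_le_pow_left₀ (by positivity) h2 _
          exact mul_le_mul (mul_le_mul a1 a2 (by positivity) (by positivity)) h3 (by positivity)
            (by positivity)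
      _ = (2 : ℝ) ^ (10 * (4 * q) + r + 96) := by
          rw [← pow_mul, ← pow_add, ← pow_add]
      _ ≤ (2 : ℝ) ^ n := pow_le_pow_right₀ (by norm_num) (by omega)
  exact_mod_cast key

end Pool.Agent.W176.SV.NS
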